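import Pool.Agent.H867.FT.Fin7

/-!
# Watanabe's question: the largest F-pure threshold of the maximal ideal is `d - 3/2`

For every `d ≥ 3` and every prime `p`, the maximum of `fpt(𝔪)` over all F-finite, F-pure,
non-`ℚ`-Gorenstein normal local domains `(R, 𝔪)` of dimension `d` and characteristic `p` is `d - 3/2`.
-/

namespace Pool.Agent.Results.MP_7dd379_ag.FullMaximum

open TensorProduct

/-- `f` *splits at level `q`* (`q = p ^ e`): the `R`-linear map `R → R^{1/q}`, `1 ↦ f^{1/q}`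
splits.  Transporting the module structure along `R^{1/q} ≅ R`, a splitting is the same thing as
an additive map `φ : R → R` with `φ (r ^ q * s) = r * φ s` and `φ f = 1`. For `f = 1`, `q = p`: `R` is
F-pure (`R` F-finite). -/
def FSplits (R : Type) [CommRing R] (q : ℕ) (f : R) : Prop :=
  ∃ φ : R →+ R, (∀ r s : R, φ (r ^ q * s) = r * φ s) ∧ φ f = 1

/-- The pair `(R, 𝔞 ^ t)` is F-pure: for every sufficiently large `q = p ^ e` some
`f ∈ 𝔞 ^ ⌈t (q - 1)⌉` splits. -/
def FPurePair (R : Type) [CommRing R] (p : ℕ) (𝔞 : Ideal R) (t : ℝ) : Prop :=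
  ∃ e₀ : ℕ, ∀ e : ℕ, e₀ ≤ e → ∃ f ∈ 𝔞 ^ ⌈t * ((p : ℝ) ^ e - 1)⌉₊, FSplits R (p ^ e) f

/-- The F-pure threshold of an ideal. -/
noncomputable def fpt (R : Type) [CommRing R] (p : ℕ) (𝔞 : Ideal R) : ℝ :=
  sSup {t : ℝ | 0 ≤ t ∧ FPurePair R p 𝔞 t}

/-- The `𝔪`-adic completion of the local ring `R`. -/
abbrev Hat (R : Type) [CommRing R] [IsLocalRing R] : Type :=
  AdicCompletion (IsLocalRing.maximalIdeal R) R

/-- The `S`-module `M` is isomorphic to `Hom_P(S, P)`. If `P = k[[X_1, …, X_n]] ⊆ S` is a Noether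
normalization of the complete local ring `S`, this says that `M` is the canonical module of `S`. -/
def IsHomDual (P S M : Type) [CommRing P] [CommRing S] [Algebra P S] [AddCommGroup M]
    [Module S M] : Prop :=
  ∃ e : M ≃+ (S →ₗ[P] P), ∀ (s : S) (y : M) (x : S), e (s • y) x = e y (s * x)

/-- `C ⊆ Frac R` is a canonical ideal of the local domain `R` (`C = ω_R`): it is finitely generated and its
completion `Ĉ = R̂ ⊗_R C` is the canonical module `Hom_P(R̂, P)` of `R̂`, for a Noether normalization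
`P = k[[X_1, …, X_n]] ⊆ R̂` (`k` a field, `R̂` a finite `P`-module). -/
def IsCanonicalIdeal (R : Type) [CommRing R] [IsDomain R] [IsLocalRing R]
    (C : Submodule R (FractionRing R)) : Prop :=
  C.FG ∧ ∃ (k : Type) (_ : Field k) (n : ℕ) (_ : Algebra (MvPowerSeries (Fin n) k) (Hat R)),
    Module.Finite (MvPowerSeries (Fin n) k) (Hat R) ∧
    Function.Injective (algebraMap (MvPowerSeries (Fin n) k) (Hat R)) ∧
    IsHomDual (MvPowerSeries (Fin n) k) (Hat R) (Hat R ⊗[R] C)

/-- The class of `C` in the divisor class group is torsion: the divisorial ideal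
`C^(r) = (R : (R : C^r))` is principal for some `r ≥ 1`. -/
def IsTorsionClass (R : Type) [CommRing R] [IsDomain R]
    (C : Submodule R (FractionRing R)) : Prop :=
  ∃ r : ℕ, 1 ≤ r ∧ ∃ t : FractionRing R, 1 / (1 / C ^ r) = Submodule.span R {t}

/-- The rings of the problem: `(R, 𝔪)` is a Noetherian local ring of characteristic `p` and of dimension
`d`, F-finite and F-pure, a normal domain, and not `ℚ`-Gorenstein (the class of its canonical ideal is not
torsion). -/
structure NonQGorenstein (p : ℕ) [Fact p.Prime] (d : ℕ) (R : Type) [CommRing R] [IsDomain R]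
    [IsLocalRing R] [CharP R p] : Prop where
  noetherian : IsNoetherianRing R
  fFinite : (frobenius R p).Finite
  fPure : FSplits R p 1
  normal : IsIntegrallyClosed R
  dim : ringKrullDim R = d
  canonical : ∃ C : Submodule R (FractionRing R), IsCanonicalIdeal R C ∧ ¬ IsTorsionClass R C

/-- The set of the values `fpt(𝔪)` of the rings of the problem of dimension `d` and
characteristic `p`. -/
def Values (p : ℕ) [Fact p.Prime] (d : ℕ) : Set ℝ :=
  {s | ∃ (R : Type) (_ : CommRing R) (_ : IsDomain R) (_ : IsLocalRing R) (_ : CharP R p),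
    NonQGorenstein p d R ∧ s = fpt R p (IsLocalRing.maximalIdeal R)}

theorem upper {p : ℕ} [Fact p.Prime] {d : ℕ} (hd : 2 ≤ d) {R : Type} [CommRing R] [IsDomain R]
    [IsLocalRing R] [CharP R p] (hR : NonQGorenstein p d R) {t : ℝ}
    (ht : FPurePair R p (IsLocalRing.maximalIdeal R) t) : t ≤ (d : ℝ) - 3 / 2 := by
  obtain ⟨hnoe, hF, hpure, hnor, hdim, C, ⟨hfg, k, i1, n, i2, i3, hinj, hcan⟩, hnt⟩ := hR
  exact Pool.Agent.H867.FT.final_upper Pool.Agent.H867.FT.hyps hd hF hpure hdim C hfg k n hinj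
    hcan hnt ht

theorem values_max (p : ℕ) [Fact p.Prime] (d : ℕ) (hd : 3 ≤ d) :
    IsGreatest (Values p d) ((d : ℝ) - 3 / 2) := by
  have hd' : (3 : ℝ) ≤ d := by exact_mod_cast hd
  constructor
  · obtain ⟨m, rfl⟩ := Nat.exists_eq_add_of_le' hd
    obtain ⟨R, r1, r2, r3, r4, hnoe, hnor, hF, hpure, hdim, ⟨C, hfg, ⟨k, i1, n, i2, i3, hinj,
      hcan⟩, hnt⟩, hex⟩ := Pool.Agent.H867.FT.final_example p m
    have hR : NonQGorenstein p (m + 3) R :=
      ⟨hnoe, hF, hpure, hnor, hdim, C, ⟨hfg, k, i1, n, i2, i3, hinj, hcan⟩, hnt⟩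
    refine ⟨R, r1, r2, r3, r4, hR, ?_⟩
    have hub : ∀ t ∈ {t : ℝ | 0 ≤ t ∧ FPurePair R p (IsLocalRing.maximalIdeal R) t},
        t ≤ ((m + 3 : ℕ) : ℝ) - 3 / 2 := fun t ht => upper (by omega) hR ht.2
    apply le_antisymm
    · apply le_of_forall_lt
      intro t ht
      obtain ⟨t', ht1, ht2⟩ := exists_between (max_lt ht (show (0 : ℝ) < ((m + 3 : ℕ) : ℝ) - 3 / 2 by
        push_cast; linarith [Nat.cast_nonneg (α := ℝ) m]))
      refine lt_of_lt_of_le (lt_of_le_of_lt (le_max_left _ _) ht1) ?_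
      have h0 : 0 ≤ t' := le_of_lt (lt_of_le_of_lt (le_max_right _ _) ht1)
      exact le_csSup ⟨_, hub⟩ ⟨h0, hex t' h0 ht2⟩
    · exact Real.sSup_le hub (by linarith)
  · rintro s ⟨R, r1, r2, r3, r4, hR, rfl⟩
    exact Real.sSup_le (fun t ht => upper (by omega) hR ht.2) (by linarith)

/-- **Main theorem.** Let `d ≥ 3`.
(1) For every prime `p` the number `d - 3/2` is the maximum of `fpt(𝔪)` over all F-finite, F-pure, normal
local domains of dimension `d` and characteristic `p` which are not `ℚ`-Gorenstein;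
(2) the same over all characteristics: `M_d = d - 3/2`, and it is a maximum;
(3) if the pair `(R, 𝔪^t)` is F-pure, `R` in the class, then `t ≤ d - 3/2`. -/
theorem result (d : ℕ) (hd : 3 ≤ d) :
    (∀ (p : ℕ) [Fact p.Prime], IsGreatest (Values p d) ((d : ℝ) - 3 / 2)) ∧
    IsGreatest {s : ℝ | ∃ (p : ℕ) (_ : Fact p.Prime), s ∈ Values p d} ((d : ℝ) - 3 / 2) ∧
    ∀ (p : ℕ) [Fact p.Prime] (R : Type) [CommRing R] [IsDomain R] [IsLocalRing R] [CharP R p],
      NonQGorenstein p d R → ∀ t : ℝ, FPurePair R p (IsLocalRing.maximalIdeal R) t →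
        t ≤ (d : ℝ) - 3 / 2 := by
  refine ⟨fun p _ => values_max p d hd, ⟨?_, ?_⟩, ?_⟩
  · have h2 : Fact (Nat.Prime 2) := ⟨Nat.prime_two⟩
    exact ⟨2, h2, (values_max 2 d hd).1⟩
  · rintro s ⟨p, hp, hs⟩
    exact (values_max p d hd).2 hs
  · intro p _ R _ _ _ _ hR t ht
    exact upper (by omega) hR ht

end Pool.Agent.Results.MP_7dd379_ag.FullMaximum
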