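import Pool.Agent.H867.FT.Asm
import Pool.Agent.H997.FT867LOC
import Pool.Agent.H400.FT867MON
import Pool.Agent.H828.FT867SUP
import Pool.Agent.H728.FT867CIR
import Pool.Agent.H967.FT867CMB
import Pool.Agent.H867.FT.NPR
import Pool.Agent.H921.FT867EXCLOW
import Pool.Agent.H415.FT867NRM
import Pool.Agent.H52.FT867DIM
import Pool.Agent.H187.FT867FFI

/-!
# Watanabe's question for toric rings: the largest F-pure threshold is `d - 3/2`

For every `d ≥ 3`, the maximum of `fpt(𝔪)` over all non-`ℚ`-Gorenstein affine toric local rings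
of dimension `d` (in all positive characteristics, over all fields) is exactly `d - 3/2`.
In particular `M_d ≥ d - 3/2`.
-/

namespace Pool.Agent.Results.MP_7dd379_ag.ToricMaximum

open Pool.Agent.H867.FT

theorem noe (K : Type) [Field K] (d n : ℕ) (C : Cone d n) : IsNoetherianRing (C.Ring K) := by
  have h : AddMonoid.FG C.S := Pool.Agent.H187.FT867FFI.gordan C
  have : Algebra.FiniteType K (C.Ring K) := AddMonoidAlgebra.finiteType_of_fg K C.S
  exact Algebra.FiniteType.isNoetherianRing K (C.Ring K)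

theorem charP_local (p : ℕ) (K : Type) [Field K] [CharP K p] (d n : ℕ) (C : Cone d n) :
    CharP (C.LocalRing K) p := by
  have h1 : Function.Injective ((algebraMap (C.Ring K) (C.LocalRing K)).comp
      (algebraMap K (C.Ring K))) := RingHom.injective _
  exact charP_of_injective_ringHom h1 p

theorem fpt_le (p : ℕ) [Fact p.Prime] (K : Type) [Field K] [CharP K p] (d n : ℕ) (C : Cone d n)
    (hC : ¬ C.QGorenstein K) :
    fpt (C.LocalRing K) p (IsLocalRing.maximalIdeal (C.LocalRing K)) ≤ (d : ℝ) - 3 / 2 := by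
  apply csSup_le
  · refine ⟨0, le_refl _, 0, fun e _ => ⟨1, ?_, ?_⟩⟩
    · simp
    · exact fpure C Pool.Agent.H997.FT867LOC.loc Pool.Agent.H400.FT.mon p K e
  · rintro t ⟨_, ht⟩
    exact upper C Pool.Agent.H828.FTSup.sup
      (Pool.Agent.H967.FT867.cmb Pool.Agent.H728.FT867.cir) p K hC t ht

/-- `t` is such that the pair `(R, 𝔪 ^ t)` is F-pure, `R` the toric local ring. -/
def PairSet {d n : ℕ} (C : Cone d n) (p : ℕ) (K : Type) [Field K] : Set ℝ :=
  {t | 0 ≤ t ∧ FPurePair (C.LocalRing K) p (IsLocalRing.maximalIdeal (C.LocalRing K)) t}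

/-- `R` is a Noetherian normal local domain of Krull dimension `d`. -/
def IsNormalLocalOfDim (R : Type) [CommRing R] (d : ℕ) : Prop :=
  IsNoetherianRing R ∧ IsLocalRing R ∧ IsDomain R ∧ IsIntegrallyClosed R ∧ ringKrullDim R = d

/-- `R` has prime characteristic `p` and its Frobenius is finite. -/
def FFinite (R : Type) [CommRing R] (p : ℕ) : Prop :=
  ∃ (_ : Fact p.Prime) (_ : CharP R p), (frobenius R p).Finite

theorem extremal (d : ℕ) (hd : 3 ≤ d) :
    ∃ C : Cone d (d + 1), ∀ (p : ℕ) [Fact p.Prime] (K : Type) [Field K] [CharP K p],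
      ¬ C.QGorenstein K ∧ IsNormalLocalOfDim (C.LocalRing K) d ∧
      (FFinite K p → FFinite (C.LocalRing K) p) ∧ FSplits (C.LocalRing K) p 1 ∧
      IsLUB (PairSet C p K) ((d : ℝ) - 3 / 2) := by
  obtain ⟨C, h1, h2, h3⟩ := Pool.Agent.H921.FT867EXCLOW.exc d hd
  refine ⟨C, fun p _ K _ _ => ?_⟩
  have hng : ¬ C.QGorenstein K := Pool.Agent.H867.FTNPR.npr K d (d + 1) C h3
  obtain ⟨hdom, hnorm⟩ := Pool.Agent.H415.FT867NRM.nrm K d (d + 1) C
  have hnoe := noe K d (d + 1) C
  have hle : (C.maxIdeal K).primeCompl ≤ nonZeroDivisors (C.Ring K) :=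
    (C.maxIdeal K).primeCompl_le_nonZeroDivisors
  have hchar := charP_local p K d (d + 1) C
  refine ⟨hng, ⟨?_, inferInstance, ?_, ?_, ?_⟩, ?_, ?_, ?_⟩
  · exact IsLocalization.isNoetherianRing (C.maxIdeal K).primeCompl (C.LocalRing K) hnoe
  · exact IsLocalization.isDomain_localization hle
  · exact isIntegrallyClosed_of_isLocalization (C.LocalRing K) (C.maxIdeal K).primeCompl hle
  · exact Pool.Agent.H52.FT867DIM.dim d hd C h1 h2 K
  · rintro ⟨_, _, hfin⟩
    exact ⟨inferInstance, hchar, Pool.Agent.H187.FT867FFI.ffi p K d (d + 1) C hfin⟩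
  · have h := fpure C Pool.Agent.H997.FT867LOC.loc Pool.Agent.H400.FT.mon p K 1
    rwa [pow_one] at h
  · exact isLUB_extremal Pool.Agent.H997.FT867LOC.loc Pool.Agent.H400.FT.mon
      Pool.Agent.H921.FT867EXCLOW.low Pool.Agent.H828.FTSup.sup
      (Pool.Agent.H967.FT867.cmb Pool.Agent.H728.FT867.cir) d hd C h1 h2 p K hng

/-- The set of values `fpt(𝔪)` of the non-`ℚ`-Gorenstein toric local rings of dimension `d`. -/
def ToricValues (d : ℕ) : Set ℝ :=
  {τ | ∃ (p : ℕ) (_ : Fact p.Prime) (K : Type) (_ : Field K) (_ : CharP K p) (n : ℕ)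
    (C : Cone d n), FFinite K p ∧ ¬ C.QGorenstein K ∧
      τ = fpt (C.LocalRing K) p (IsLocalRing.maximalIdeal (C.LocalRing K))}

/-- **Main theorem.** Let `d ≥ 3`.
(1) `d - 3/2` is the maximum of `fpt(𝔪)` over all non-`ℚ`-Gorenstein toric local rings of
dimension `d` over F-finite fields of positive characteristic.
(2) The upper bound holds over every field of positive characteristic.
(3) There is one cone `C` such that for every prime `p` and every field `K` of characteristic `p`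
the local ring `C.LocalRing K` is a Noetherian normal local domain of Krull dimension `d`, F-finite
if `K` is, F-pure, not `ℚ`-Gorenstein, and `fpt(𝔪) = d - 3/2`. -/
theorem result (d : ℕ) (hd : 3 ≤ d) :
    IsGreatest (ToricValues d) ((d : ℝ) - 3 / 2) ∧
    (∀ (p : ℕ) [Fact p.Prime] (K : Type) [Field K] [CharP K p] (n : ℕ) (C : Cone d n),
      ¬ C.QGorenstein K → ∀ t ∈ PairSet C p K, t ≤ (d : ℝ) - 3 / 2) ∧
    ∃ C : Cone d (d + 1), ∀ (p : ℕ) [Fact p.Prime] (K : Type) [Field K] [CharP K p],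
      ¬ C.QGorenstein K ∧ IsNormalLocalOfDim (C.LocalRing K) d ∧
      (FFinite K p → FFinite (C.LocalRing K) p) ∧ FSplits (C.LocalRing K) p 1 ∧
      IsLUB (PairSet C p K) ((d : ℝ) - 3 / 2) := by
  refine ⟨⟨?_, ?_⟩, ?_, extremal d hd⟩
  · obtain ⟨C, hC⟩ := extremal d hd
    have h2 : Fact (Nat.Prime 2) := ⟨Nat.prime_two⟩
    obtain ⟨hng, _, _, _, hlub⟩ := hC 2 (ZMod 2)
    refine ⟨2, h2, ZMod 2, inferInstance, inferInstance, d + 1, C, ?_, hng, ?_⟩
    · exact ⟨h2, inferInstance,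
        RingHom.Finite.of_surjective _ (fun x => ⟨x, ZMod.frobenius_zmod 2 ▸ rfl⟩)⟩
    · refine (hlub.csSup_eq ?_).symm
      refine ⟨0, le_refl _, 0, fun e _ => ⟨1, ?_, ?_⟩⟩
      · simp
      · exact fpure C Pool.Agent.H997.FT867LOC.loc Pool.Agent.H400.FT.mon 2 (ZMod 2) e
  · rintro τ ⟨p, _, K, _, _, n, C, _, hC, rfl⟩
    exact fpt_le p K d n C hC
  · rintro p _ K _ _ n C hC t ⟨_, ht⟩
    exact upper C Pool.Agent.H828.FTSup.sup
      (Pool.Agent.H967.FT867.cmb Pool.Agent.H728.FT867.cir) p K hC t ht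

end Pool.Agent.Results.MP_7dd379_ag.ToricMaximum
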